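import Pool.Agent.helper17.EXT.Spec

/-!
# Row CNF of project EXT (MP_561ff4_al): connectedness of the long root points
-/

set_option autoImplicit false
set_option linter.unusedVariables false

open Finset

namespace Pool.Agent.EXT

open Pool.Agent.EXC

/-- closed under fixed scalars and steps of type 1 -/
def CNF_Cl {K : Type} [Field K] (τ : K ≃+* K) (P : Lm C6 K → Prop) : Prop :=
  (∀ a (c : K), τ c = c → c ≠ 0 → P a → P (c • a)) ∧ (∀ a b, TpS τ a b 1 → P a → P b) ∧ (∀ a b, TpS τ a b 1 → P b → P a)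

/-- every closed predicate which holds for `a` holds for `b` -/
def CNF_R {K : Type} [Field K] (τ : K ≃+* K) (a b : Lm C6 K) : Prop :=
  ∀ P : Lm C6 K → Prop, CNF_Cl τ P → P a → P b

section
variable {K : Type} [Field K] {τ : K ≃+* K}

theorem CNF_refl (a : Lm C6 K) : CNF_R τ a a := fun _ _ h => h

theorem CNF_trans {a b c : Lm C6 K} (h : CNF_R τ a b) (h' : CNF_R τ b c) : CNF_R τ a c :=
  fun P hP ha => h' P hP (h P hP ha)

theorem CNF_symm {a b : Lm C6 K} (h : CNF_R τ a b) : CNF_R τ b a := by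
  intro P hP hb
  by_contra ha
  refine h (fun v => ¬ P v) ⟨fun v c ht hc hv hcv => hv ?_, fun v w hvw hv hw => hv (hP.2.2 v w hvw hw),
    fun v w hvw hw hv => hw (hP.2.1 v w hvw hv)⟩ ha hb
  have := hP.1 (c • v) c⁻¹ (by rw [map_inv₀, ht]) (inv_ne_zero hc) hcv
  rwa [smul_smul, inv_mul_cancel₀ hc, one_smul] at this

theorem CNF_smul (a : Lm C6 K) {c : K} (ht : τ c = c) (hc : c ≠ 0) : CNF_R τ a (c • a) := fun _ hP ha => hP.1 a c ht hc ha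

theorem CNF_tp {a b : Lm C6 K} (h : TpS τ a b 1) : CNF_R τ a b := fun _ hP ha => hP.2.1 a b h ha

end

theorem CNF_th : LR th := by
  unfold LR
  decide +kernel

theorem CNF_b1 : LR ![1, 1, 2, 3, 2, 1] ∧ ip C6 th ![1, 1, 2, 3, 2, 1] = 1 := by
  unfold LR
  decide +kernel

theorem CNF_b0 : LR ![0, 0, 0, 1, 0, 0] ∧ ip C6 th ![0, 0, 0, 1, 0, 0] = 0 ∧ LR ![0, 1, 0, 1, 0, 0] ∧
    ip C6 th ![0, 1, 0, 1, 0, 0] = 1 ∧ ip C6 ![0, 1, 0, 1, 0, 0] ![0, 0, 0, 1, 0, 0] = 1 := by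
  unfold LR
  decide +kernel

theorem CNF_bm : LR ![0, -1, 0, 0, 0, 0] ∧ ip C6 th ![0, -1, 0, 0, 0, 0] = -1 ∧
    ip C6 ![1, 1, 2, 3, 2, 1] ![0, -1, 0, 0, 0, 0] = 1 ∧ LR (-th) ∧ ip C6 th (-th) = -2 ∧
    ip C6 ![0, -1, 0, 0, 0, 0] (-th) = 1 := by
  unfold LR
  decide +kernel

theorem CNF (hLST : LST_stmt) (hRTF : RTF_stmt) (hWST : WST_stmt) (hWPS : WPS_stmt) (hSGR : SGR_stmt) (hESF : ESF_stmt) (hTFS : TFS_stmt) (hACS : ACS_stmt) (hGEP : GEP_stmt) : CNF_stmt := by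
  intro K _ τ hτ P hP1 hP2 ha0 b hb
  -- invariance under the group
  have hmap : ∀ k ∈ GS τ, ∀ a b : Lm C6 K, CNF_R τ a b → CNF_R τ (k a) (k b) := by
    intro k hk a b hab Q hQ ha
    refine hab (fun v => Q (k v)) ⟨fun v c ht hc hv => ?_, fun v w hvw hv => ?_, fun v w hvw hv => ?_⟩ ha
    · show Q (k (c • v))
      rw [map_smul]
      exact hQ.1 _ c ht hc hv
    · exact hQ.2.1 _ _ ((hTFS K τ hτ v w 1 hvw).2.2.2.1 k hk) hv
    · exact hQ.2.2 _ _ ((hTFS K τ hτ v w 1 hvw).2.2.2.1 k hk) hv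
  have hs0 : ∀ s : ℤ, (s = 1 ∨ s = -1) → (s : K) ≠ 0 := by
    rintro s (h | h) <;> simp [h]
  have hst : ∀ s : ℤ, τ (s : K) = (s : K) := fun s => map_intCast τ s
  -- roots with product 1
  have hone : ∀ α β, LR α → LR β → ip C6 α β = 1 → CNF_R τ (E C6 α : Lm C6 K) (E C6 β) := by
    intro α β hα hβ hαβ
    have hw := hWST.1 α β th ![1, 1, 2, 3, 2, 1] hα hβ CNF_th CNF_b1.1 (hαβ.trans CNF_b1.2.symm)
    obtain ⟨g, hg, s, s', hs, hs', e1, e2⟩ := hWPS K τ hτ α β th ![1, 1, 2, 3, 2, 1] hα.1 hβ.1 hw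
    exact CNF_tp ⟨g, hg, ![1, 1, 2, 3, 2, 1], CNF_b1.1, CNF_b1.2, (s : K), (s' : K), hst s, hst s', hs0 s hs, hs0 s' hs', e1, e2⟩
  -- transport from a standard pair
  have htr : ∀ β₀, LR β₀ → CNF_R τ (E C6 th : Lm C6 K) (E C6 β₀) → ∀ α β, LR α → LR β → ip C6 α β = ip C6 th β₀ →
      CNF_R τ (E C6 α : Lm C6 K) (E C6 β) := by
    intro β₀ h0 hR α β hα hβ hαβ
    have hw := hWST.1 th β₀ α β CNF_th h0 hα hβ hαβ.symm
    obtain ⟨g, hg, s, s', hs, hs', e1, e2⟩ := hWPS K τ hτ th β₀ α β CNF_th.1 h0.1 hw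
    have h1 := hmap g hg _ _ hR
    rw [e1, e2] at h1
    exact CNF_trans (CNF_smul _ (hst s) (hs0 s hs)) (CNF_trans h1 (CNF_symm (CNF_smul _ (hst s') (hs0 s' hs'))))
  have h10 : CNF_R τ (E C6 th : Lm C6 K) (E C6 ![0, 0, 0, 1, 0, 0]) :=
    CNF_trans (hone _ _ CNF_th CNF_b0.2.2.1 CNF_b0.2.2.2.1) (hone _ _ CNF_b0.2.2.1 CNF_b0.1 CNF_b0.2.2.2.2)
  have h11 : CNF_R τ (E C6 th : Lm C6 K) (E C6 ![0, -1, 0, 0, 0, 0]) :=
    CNF_trans (hone _ _ CNF_th CNF_b1.1 CNF_b1.2) (hone _ _ CNF_b1.1 CNF_bm.1 CNF_bm.2.2.1)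
  have h12 : CNF_R τ (E C6 th : Lm C6 K) (E C6 (-th)) :=
    CNF_trans h11 (hone _ _ CNF_bm.1 CNF_bm.2.2.2.1 CNF_bm.2.2.2.2.2)
  have hroot : ∀ α β, LR α → LR β → CNF_R τ (E C6 α : Lm C6 K) (E C6 β) := by
    intro α β hα hβ
    have h1 := ip_abs_le hα.1 hβ.1
    have h5 : ip C6 α β = -2 ∨ ip C6 α β = -1 ∨ ip C6 α β = 0 ∨ ip C6 α β = 1 ∨ ip C6 α β = 2 := by omega
    rcases h5 with h | h | h | h | h
    · exact htr (-th) CNF_bm.2.2.2.1 h12 α β hα hβ (h.trans CNF_bm.2.2.2.2.1.symm)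
    · exact htr _ CNF_bm.1 h11 α β hα hβ (h.trans CNF_bm.2.1.symm)
    · exact htr _ CNF_b0.1 h10 α β hα hβ (h.trans CNF_b0.2.1.symm)
    · exact hone α β hα hβ h
    · rw [eq_of_ip_eq_two hα.1 hβ.1 h]
      exact CNF_refl _
  -- group elements
  have hgrp : ∀ g ∈ GS τ, ∀ α, LR α → CNF_R τ (E C6 α : Lm C6 K) (g (E C6 α)) := by
    intro g hg
    unfold GS at hg
    induction hg using Subgroup.closure_induction with
    | mem g hg =>
      intro α hα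
      have hgm : g ∈ GS τ := Subgroup.subset_closure hg
      have hex : ∃ δ, LR δ ∧ g (E C6 δ) = (E C6 δ : Lm C6 K) := by
        rcases hg with ⟨β, t, hβ, ht, hx⟩ | ⟨γ, t, hγ, hx⟩
        · refine ⟨β, hβ, ?_⟩
          rw [hx (E C6 β)]
          exact (f_ACT 6 C6 K β t hβ.1).1 β hβ.1 (by rw [hβ.1]; norm_num)
        · by_cases h0 : 0 ≤ ip C6 γ th
          · exact ⟨th, CNF_th, ((hACS K τ hτ γ th hγ CNF_th).2.2.2 t g hx).1 h0⟩
          · refine ⟨-th, CNF_bm.2.2.2.1, ((hACS K τ hτ γ (-th) hγ CNF_bm.2.2.2.1).2.2.2 t g hx).1 ?_⟩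
            rw [ip_neg_right]
            omega
      obtain ⟨δ, hδ, e⟩ := hex
      have h1 := hmap g hgm _ _ (hroot α δ hα hδ)
      rw [e] at h1
      exact CNF_trans (hroot α δ hα hδ) (CNF_symm h1)
    | one => intro α _; exact CNF_refl _
    | mul g h hg _ ihg ihh =>
      intro α hα
      have h1 := hmap g hg _ _ (ihh α hα)
      exact CNF_trans (ihg α hα) h1
    | inv g hg ih =>
      intro α hα
      have h1 := hmap g⁻¹ (inv_mem hg) _ _ (ih α hα)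
      have e : g⁻¹ (g (E C6 α)) = (E C6 α : Lm C6 K) := by
        show g.symm (g (E C6 α)) = _
        exact g.symm_apply_apply _
      rw [e] at h1
      exact CNF_symm h1
  obtain ⟨a, ⟨g, hg, α, hα, c, hct, hc, rfl⟩, hPa⟩ := ha0
  obtain ⟨g', hg', α', hα', c', hct', hc', rfl⟩ := hb
  have h1 : CNF_R τ (c • g (E C6 α)) (E C6 α : Lm C6 K) := CNF_symm (CNF_trans (hgrp g hg α hα) (CNF_smul _ hct hc))
  have h2 : CNF_R τ (E C6 α' : Lm C6 K) (c' • g' (E C6 α')) := CNF_trans (hgrp g' hg' α' hα') (CNF_smul _ hct' hc')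
  exact (CNF_trans h1 (CNF_trans (hroot α α' hα hα') h2)) P
    ⟨hP1, hP2, fun a b h hPb => hP2 b a (hTFS K τ hτ a b 1 h).2.2.1 hPb⟩ hPa

end Pool.Agent.EXT
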