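import Pool.Agent.helper17.EXT.SpecJ

/-! Row ftj:JLF: the finite check on the short roots. -/

set_option autoImplicit false

open Finset

namespace Pool.Agent.EXT

open Pool.Agent.EXC

/-- the table of the triples: short root, positive root, long root -/
def JLF_tab : List ((Fin 6 → ℤ) × (Fin 6 → ℤ) × (Fin 6 → ℤ)) := [
  (![0, 0, 0, 0, 0, 1], ![0, 0, 0, 0, 1, 0], ![0, 1, 1, 2, 1, 0]),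
  (![0, 0, 0, 0, 1, 0], ![0, 0, 0, 0, 0, 1], ![0, 0, 0, 1, 0, 0]),
  (![0, 0, 1, 0, 0, 0], ![0, 0, 0, 1, 0, 0], ![0, 0, -1, -1, -1, 0]),
  (![1, 0, 0, 0, 0, 0], ![0, 0, 1, 0, 0, 0], ![0, 1, 1, 2, 1, 0]),
  (![0, 0, 0, 0, 1, 1], ![0, 0, 0, 1, 0, 0], ![-1, 0, -1, -1, -1, -1]),
  (![0, 0, 0, 1, 1, 0], ![0, 0, 0, 0, 0, 1], ![0, 1, 0, 0, 0, 0]),
  (![0, 0, 1, 1, 0, 0], ![0, 1, 0, 0, 0, 0], ![0, -1, -1, -2, -1, 0]),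
  (![1, 0, 1, 0, 0, 0], ![0, 0, 0, 1, 0, 0], ![-1, 0, -1, -1, -1, -1]),
  (![0, 0, 0, 1, 1, 1], ![0, 0, 1, 0, 0, 0], ![0, 1, 0, 0, 0, 0]),
  (![0, 1, 0, 1, 1, 0], ![0, 0, 0, 0, 0, 1], ![0, -1, 0, 0, 0, 0]),
  (![0, 1, 1, 1, 0, 0], ![1, 0, 0, 0, 0, 0], ![0, -1, 0, 0, 0, 0]),
  (![1, 0, 1, 1, 0, 0], ![0, 0, 0, 0, 1, 0], ![0, 1, 0, 0, 0, 0]),
  (![0, 0, 1, 1, 1, 1], ![0, 1, 0, 0, 0, 0], ![-1, -1, -2, -2, -2, -1]),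
  (![0, 1, 0, 1, 1, 1], ![0, 0, 1, 0, 0, 0], ![0, -1, 0, 0, 0, 0]),
  (![1, 0, 1, 1, 1, 0], ![0, 1, 0, 0, 0, 0], ![-1, -1, -2, -2, -2, -1]),
  (![1, 1, 1, 1, 0, 0], ![0, 0, 0, 0, 1, 0], ![0, -1, 0, 0, 0, 0]),
  (![0, 1, 1, 1, 1, 1], ![0, 0, 0, 1, 0, 0], ![-1, -2, -2, -3, -2, -1]),
  (![1, 1, 1, 1, 1, 0], ![0, 0, 0, 1, 0, 0], ![-1, -2, -2, -3, -2, -1]),
  (![0, 1, 1, 2, 1, 1], ![0, 0, 0, 0, 1, 0], ![0, -1, -1, -2, -1, 0]),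
  (![1, 1, 1, 2, 1, 0], ![0, 0, 1, 0, 0, 0], ![0, -1, -1, -2, -1, 0]),
  (![0, 0, 0, 0, 0, -1], ![0, 0, 0, 0, 1, 1], ![0, 0, -1, -1, -1, 0]),
  (![0, 0, 0, 0, -1, 0], ![0, 0, 0, 0, 1, 1], ![0, 0, 1, 1, 1, 0]),
  (![0, 0, -1, 0, 0, 0], ![1, 0, 1, 0, 0, 0], ![0, 0, 1, 1, 1, 0]),
  (![-1, 0, 0, 0, 0, 0], ![1, 0, 1, 0, 0, 0], ![0, 0, -1, -1, -1, 0]),
  (![0, 0, 0, 0, -1, -1], ![0, 0, 0, 0, 0, 1], ![0, 0, 0, -1, 0, 0]),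
  (![0, 0, 0, -1, -1, 0], ![0, 0, 0, 1, 0, 0], ![0, 0, 1, 1, 1, 0]),
  (![0, 0, -1, -1, 0, 0], ![0, 0, 0, 1, 0, 0], ![0, 0, 1, 1, 1, 0]),
  (![-1, 0, -1, 0, 0, 0], ![0, 0, 1, 0, 0, 0], ![1, 0, 1, 1, 1, 1]),
  (![0, 0, 0, -1, -1, -1], ![0, 0, 0, 0, 0, 1], ![0, 0, 0, 1, 0, 0]),
  (![0, -1, 0, -1, -1, 0], ![0, 1, 0, 0, 0, 0], ![0, 1, 1, 2, 1, 0]),
  (![0, -1, -1, -1, 0, 0], ![0, 1, 0, 0, 0, 0], ![0, 1, 1, 2, 1, 0]),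
  (![-1, 0, -1, -1, 0, 0], ![0, 0, 0, 1, 0, 0], ![1, 0, 1, 1, 1, 1]),
  (![0, 0, -1, -1, -1, -1], ![0, 0, 1, 0, 0, 0], ![1, 0, 1, 1, 1, 1]),
  (![0, -1, 0, -1, -1, -1], ![0, 0, 0, 0, 0, 1], ![0, 1, 0, 0, 0, 0]),
  (![-1, 0, -1, -1, -1, 0], ![0, 0, 0, 0, 1, 0], ![1, 0, 1, 1, 1, 1]),
  (![-1, -1, -1, -1, 0, 0], ![0, 1, 0, 0, 0, 0], ![1, 1, 1, 2, 1, 1]),
  (![0, -1, -1, -1, -1, -1], ![0, 0, 1, 0, 0, 0], ![0, 1, 0, 0, 0, 0]),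
  (![-1, -1, -1, -1, -1, 0], ![0, 0, 0, 0, 1, 0], ![0, 1, 0, 0, 0, 0]),
  (![0, -1, -1, -2, -1, -1], ![0, 0, 0, 1, 0, 0], ![1, 2, 2, 3, 2, 1]),
  (![-1, -1, -1, -2, -1, 0], ![0, 0, 0, 1, 0, 0], ![1, 2, 2, 3, 2, 1]),
  (![0, -1, -1, -2, -2, -1], ![0, 0, 0, 0, 1, 0], ![0, 1, 1, 2, 1, 0]),
  (![-1, -1, -2, -2, -1, 0], ![0, 0, 1, 0, 0, 0], ![0, 1, 1, 2, 1, 0]),
  (![-1, -1, -1, -2, -2, -1], ![1, 0, 0, 0, 0, 0], ![1, 1, 2, 2, 2, 1]),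
  (![-1, -1, -2, -2, -1, -1], ![0, 0, 0, 0, 0, 1], ![1, 1, 2, 2, 2, 1])]

/-- the condition on a triple -/
def JLF_ok (t : (Fin 6 → ℤ) × (Fin 6 → ℤ) × (Fin 6 → ℤ)) : Prop :=
  ip C6 t.2.1 t.2.1 = 2 ∧ (∀ i, 0 ≤ t.2.1 i) ∧ ip C6 t.2.1 t.1 = -1 ∧
  (pv t.2.1 = t.2.1 ∨ ip C6 (pv t.2.1) t.1 = 0) ∧
  (ip C6 (t.1 + t.2.1) (t.1 + t.2.1) = 2 ∧ pv (t.1 + t.2.1) ≠ t.1 + t.2.1) ∧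
  (ip C6 t.2.2 t.2.2 = 2 ∧ pv t.2.2 = t.2.2) ∧ ip C6 t.1 t.2.2 = -1 ∧ ip C6 t.2.1 t.2.2 = 0 ∧
  t.2.2 + (t.1 + t.2.1) ≠ eta ∧ t.2.2 + (t.1 + t.2.1) ≠ pv eta ∧
  ∀ x ∈ [0, t.1, pv t.1, t.1 + pv t.1], ∀ y ∈ [0, eta, pv eta, eta + pv eta], t.1 + t.2.1 ≠ x + y

instance (t : (Fin 6 → ℤ) × (Fin 6 → ℤ) × (Fin 6 → ℤ)) : Decidable (JLF_ok t) := by
  unfold JLF_ok
  infer_instance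

lemma JLF_chk : ∀ t ∈ JLF_tab, JLF_ok t := by
  decide +kernel

lemma JLF_cov : ∀ γ ∈ RL, pv γ ≠ γ → γ ≠ eta → γ ≠ pv eta → γ ≠ et2 → γ ≠ pv et2 →
    γ ∈ JLF_tab.map (fun t => t.1) := by
  decide +kernel

theorem JLF (hLST : LST_stmt) : JLF_stmt := by
  intro γ hγ h1 h2 h3 h4
  have hm : γ ∈ RL := (hLST γ).mp hγ.1
  have hc := JLF_cov γ hm hγ.2 h1 h2 h3 h4
  rw [List.mem_map] at hc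
  obtain ⟨t, ht, rfl⟩ := hc
  exact ⟨t.2.1, t.2.2, JLF_chk t ht⟩

end Pool.Agent.EXT
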